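import Pool.Agent.H68.L.R_seed8.Y703.CX.Stm

/-!
# Project CX: linear algebra over the field with three elements (S_LA)
-/

set_option autoImplicit false

open scoped Classical

namespace Pool.Agent.Y759.CX

open Function Module
open Pool.Agent.Y703.CX

/-- the proportion of the elements with a property -/
noncomputable def fr {G : Type} (P : G → Prop) : ℝ := (Nat.card {g // P g} : ℝ) / Nat.card G

lemma fr_equiv {G H : Type} (e : G ≃ H) (P : H → Prop) : fr (fun g => P (e g)) = fr P := by
  unfold fr
  rw [Nat.card_congr e, Nat.card_congr (e.subtypeEquiv (p := fun g => P (e g)) (q := P)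
    fun g => Iff.rfl)]

lemma fr_nonneg {G : Type} (P : G → Prop) : 0 ≤ fr P := by
  unfold fr
  positivity

lemma fr_le_one {G : Type} [Finite G] (P : G → Prop) : fr P ≤ 1 := by
  unfold fr
  refine div_le_one_of_le₀ ?_ (by positivity)
  exact_mod_cast Finite.card_subtype_le P

lemma fr_mono {G : Type} [Finite G] {P Q : G → Prop} (h : ∀ g, P g → Q g) : fr P ≤ fr Q := by
  unfold fr
  refine div_le_div_of_nonneg_right ?_ (by positivity)
  exact_mod_cast Nat.card_le_card_of_injective (fun x : {g // P g} => (⟨x.1, h x.1 x.2⟩ : {g // Q g}))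
    (fun x y hxy => Subtype.ext (congrArg (fun z : {g // Q g} => z.1) hxy))

lemma fr_not {G : Type} [Finite G] [Nonempty G] (P : G → Prop) : fr (fun g => ¬ P g) = 1 - fr P := by
  have := Fintype.ofFinite G
  have h1 : Nat.card {g // ¬ P g} + Nat.card {g // P g} = Nat.card G := by
    simp only [Nat.card_eq_fintype_card]
    rw [Fintype.card_subtype_compl]
    have := Fintype.card_subtype_le P
    omega
  have h2 : (Nat.card G : ℝ) ≠ 0 := by exact_mod_cast Nat.card_pos.ne'
  unfold fr
  rw [eq_sub_iff_add_eq, ← add_div]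
  rw [div_eq_one_iff_eq h2]
  exact_mod_cast h1

lemma fr_prod {G H : Type} [Fintype G] [Finite H] (P : G → H → Prop) :
    fr (fun x : G × H => P x.1 x.2) = (∑ g, fr (P g)) / Nat.card G := by
  have := Fintype.ofFinite H
  have h1 : Nat.card {x : G × H // P x.1 x.2} = ∑ g, Nat.card {h // P g h} := by
    rw [← Nat.card_sigma]
    refine Nat.card_congr ?_
    exact {
      toFun := fun x => ⟨x.1.1, x.1.2, x.2⟩
      invFun := fun x => ⟨(x.1, x.2.1), x.2.2⟩
      left_inv := fun x => rfl
      right_inv := fun x => rfl }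
  unfold fr
  rw [h1, Nat.card_prod, ← Finset.sum_div, div_div]
  push_cast
  rw [mul_comm (Nat.card H : ℝ)]

/-- a surjective homomorphism -/
lemma fr_comp {G H : Type} [AddCommGroup G] [AddCommGroup H] [Finite G] [Finite H] (π : G →+ H)
    (hπ : Surjective π) (P : H → Prop) : fr (fun g => P (π g)) = fr P := by
  obtain ⟨s, hs⟩ := hπ.hasRightInverse
  have key : ∀ Q : H → Prop, Nat.card {g // Q (π g)} = Nat.card {h // Q h} * Nat.card π.ker := by
    intro Q
    rw [← Nat.card_prod]
    refine Nat.card_congr ?_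
    exact {
      toFun := fun x => (⟨π x.1, x.2⟩, ⟨x.1 - s (π x.1), by
        rw [AddMonoidHom.mem_ker, map_sub, hs, sub_self]⟩)
      invFun := fun x => ⟨x.2.1 + s x.1.1, by
        have : π (x.2.1 + s x.1.1) = x.1.1 := by
          rw [map_add, hs, (AddMonoidHom.mem_ker).1 x.2.2, zero_add]
        rw [this]
        exact x.1.2⟩
      left_inv := fun x => Subtype.ext (by simp)
      right_inv := fun x => by
        have h0 : π (x.2.1 + s x.1.1) = x.1.1 := by
          rw [map_add, hs, (AddMonoidHom.mem_ker).1 x.2.2, zero_add]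
        refine Prod.ext (Subtype.ext h0) (Subtype.ext ?_)
        show x.2.1 + s x.1.1 - s (π (x.2.1 + s x.1.1)) = x.2.1
        rw [h0]
        abel }
  have h1 := key P
  have h2 := key fun _ => True
  have e1 : Nat.card {g : G // (fun _ => True) (π g)} = Nat.card G :=
    Nat.card_congr (Equiv.subtypeUnivEquiv fun _ => trivial)
  have e2 : Nat.card {h : H // (fun _ => True) h} = Nat.card H :=
    Nat.card_congr (Equiv.subtypeUnivEquiv fun _ => trivial)
  rw [e1, e2] at h2
  unfold fr
  rw [h1, h2]
  push_cast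
  have hk : (Nat.card π.ker : ℝ) ≠ 0 := by exact_mod_cast Nat.card_pos.ne'
  rw [mul_div_mul_right _ _ hk]

/-- union bound -/
lemma fr_exists {G ι : Type} [Finite G] [Fintype ι] (P : ι → G → Prop) {ε : ℝ}
    (h : ∀ i, fr (P i) ≤ ε) : fr (fun g => ∃ i, P i g) ≤ Fintype.card ι * ε := by
  have h1 : Nat.card {g // ∃ i, P i g} ≤ ∑ i, Nat.card {g // P i g} := by
    rw [← Nat.card_sigma]
    refine Nat.card_le_card_of_injective
      (fun x : {g // ∃ i, P i g} => (⟨x.2.choose, ⟨x.1, x.2.choose_spec⟩⟩ : Σ i, {g // P i g})) ?_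
    intro x y hxy
    have : (x.1 : G) = y.1 := congrArg (fun z : (Σ i, {g // P i g}) => z.2.1) hxy
    exact Subtype.ext this
  have h2 : fr (fun g => ∃ i, P i g) ≤ ∑ i, fr (P i) := by
    unfold fr
    rw [← Finset.sum_div]
    refine div_le_div_of_nonneg_right ?_ (by positivity)
    exact_mod_cast h1
  refine h2.trans ((Finset.sum_le_sum fun i _ => h i).trans (le_of_eq ?_))
  rw [Finset.sum_const, nsmul_eq_mul, Finset.card_univ]

lemma fr_single {G : Type} (x : G) : fr (fun g => g = x) = 1 / Nat.card G := by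
  unfold fr
  rw [Nat.card_unique, Nat.cast_one]

/-! ### linear maps over the field with three elements -/

abbrev F := ZMod 3

instance : Fact (Nat.Prime 3) := ⟨Nat.prime_three⟩

section lin

variable {X K Q W Y V : Type} [AddCommGroup X] [Module F X] [Finite X]
  [AddCommGroup K] [Module F K] [Finite K] [AddCommGroup Q] [Module F Q] [Finite Q]
  [AddCommGroup W] [Module F W] [Finite W] [AddCommGroup Y] [Module F Y] [Finite Y]
  [AddCommGroup V] [Module F V] [Finite V]

lemma card_mod (Q : Type) [AddCommGroup Q] [Module F Q] [Finite Q] :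
    Nat.card Q = 3 ^ finrank F Q := by
  have := Fintype.ofFinite Q
  rw [Nat.card_eq_fintype_card, Module.card_eq_pow_finrank (K := F), ZMod.card]

instance finHom : Finite (K →ₗ[F] Q) := DFunLike.finite _

/-- the product -/
noncomputable def pm (m : ℕ) : ℝ := ∏ i ∈ Finset.range m, (1 - (1 / 3 : ℝ) ^ (i + 1))

lemma pm_nonneg (m : ℕ) : 0 ≤ pm m := by
  refine Finset.prod_nonneg fun i _ => ?_
  have : (1 / 3 : ℝ) ^ (i + 1) ≤ 1 := pow_le_one₀ (by norm_num) (by norm_num)
  linarith

lemma pm_le_one (m : ℕ) : pm m ≤ 1 := by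
  refine Finset.prod_le_one (fun i _ => ?_) fun i _ => ?_
  · have : (1 / 3 : ℝ) ^ (i + 1) ≤ 1 := pow_le_one₀ (by norm_num) (by norm_num)
    linarith
  · have : 0 ≤ (1 / 3 : ℝ) ^ (i + 1) := by positivity
    linarith

/-- the proportion of the injective maps -/
theorem fr_inj {m : ℕ} (hK : finrank F K = m) (hQ : finrank F Q = m) :
    fr (fun g : K →ₗ[F] Q => Injective g) = pm m := by
  have := Fintype.ofFinite Q
  have := Fintype.ofFinite K
  let b : Basis (Fin m) F K := Module.finBasisOfFinrankEq F K hK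
  have e : (Fin m → Q) ≃ (K →ₗ[F] Q) := (b.constr F).toEquiv
  have h1 : fr (fun g : K →ₗ[F] Q => Injective g) =
      fr (fun s : Fin m → Q => LinearIndependent F s) := by
    rw [← fr_equiv (b.constr F).toEquiv]
    congr 1
    funext s
    apply propext
    show Injective (b.constr F s) ↔ _
    have hb : ∀ i, b.constr F s (b i) = s i := fun i => b.constr_basis F s i
    constructor
    · intro hi
      have h2 := b.linearIndependent.map' (b.constr F s) (LinearMap.ker_eq_bot.2 hi)
      have h3 : (b.constr F s) ∘ b = s := funext hb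
      rwa [h3] at h2
    · intro hi
      refine (injective_iff_map_eq_zero (b.constr F s)).2 ?_
      intro x hx
      have h4 : ∑ i, b.repr x i • s i = 0 := by
        have h5 := congrArg (b.constr F s) (b.sum_repr x)
        rw [map_sum, hx] at h5
        rw [← h5]
        exact Finset.sum_congr rfl fun i _ => by rw [map_smul, hb]
      have h5 := Fintype.linearIndependent_iff.1 hi _ h4
      rw [← b.sum_repr x]
      exact Finset.sum_eq_zero fun i _ => by rw [h5 i, zero_smul]
  rw [h1]
  unfold fr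
  rw [card_linearIndependent (K := F) (V := Q) (by rw [hQ])]
  rw [hQ, ZMod.card, Nat.card_fun, card_mod Q, hQ]
  simp only [Nat.card_eq_fintype_card, Fintype.card_fin]
  rw [Fin.prod_univ_eq_prod_range (fun i => 3 ^ m - 3 ^ i) m]
  have h6 : ((∏ i ∈ Finset.range m, (3 ^ m - 3 ^ i) : ℕ) : ℝ) =
      ∏ i ∈ Finset.range m, ((3 : ℝ) ^ m - 3 ^ i) := by
    rw [Nat.cast_prod]
    refine Finset.prod_congr rfl fun i hi => ?_
    rw [Nat.cast_sub (Nat.pow_le_pow_right (by norm_num) (Finset.mem_range.1 hi).le)]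
    push_cast
    rfl
  rw [h6]
  push_cast
  have h7 : ((3 : ℝ) ^ m) ^ m = ∏ i ∈ Finset.range m, (3 : ℝ) ^ m := by
    rw [Finset.prod_const, Finset.card_range]
  rw [h7, ← Finset.prod_div_distrib]
  unfold pm
  rw [← Finset.prod_range_reflect]
  refine Finset.prod_congr rfl fun i hi => ?_
  have hi' := Finset.mem_range.1 hi
  have e1 : (3 : ℝ) ^ m = 3 ^ (m - 1 - i) * 3 ^ (i + 1) := by
    rw [← pow_add]
    congr 1
    omega
  have h8 : (3 : ℝ) ^ (m - 1 - i) ≠ 0 := by positivity
  have h9 : (3 : ℝ) ^ (i + 1) ≠ 0 := by positivity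
  rw [e1, sub_div, div_self (mul_ne_zero h8 h9), one_div_pow]
  congr 1
  rw [div_mul_cancel_left₀ h8, one_div]

/-- completions of an injective map -/
theorem fr_compl {m : ℕ} (hK : finrank F K = m) (f : X →ₗ[F] W) (hf : Injective f)
    (hW : finrank F W = finrank F X + m) :
    fr (fun g : K →ₗ[F] W => Injective (f.coprod g)) = pm m := by
  set R := LinearMap.range f with hR
  have hQ : finrank F (W ⧸ R) = m := by
    have h1 := Submodule.finrank_quotient_add_finrank R
    have h2 : finrank F R = finrank F X := LinearMap.finrank_range_of_inj hf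
    omega
  haveI : Finite (W ⧸ R) := Finite.of_surjective _ R.mkQ_surjective
  rw [← fr_inj (K := K) (Q := W ⧸ R) hK hQ]
  let π : (K →ₗ[F] W) →+ (K →ₗ[F] W ⧸ R) :=
    { toFun := fun g => R.mkQ ∘ₗ g
      map_zero' := by ext; simp
      map_add' := fun g h => by ext; simp }
  have hπ : Surjective π := by
    obtain ⟨s, hs⟩ := R.mkQ.exists_rightInverse_of_surjective
      (LinearMap.range_eq_top.2 R.mkQ_surjective)
    intro g
    refine ⟨s ∘ₗ g, ?_⟩
    show R.mkQ ∘ₗ (s ∘ₗ g) = g
    rw [← LinearMap.comp_assoc, hs, LinearMap.id_comp]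
  rw [← fr_comp π hπ]
  congr 1
  funext g
  apply propext
  show Injective (f.coprod g) ↔ Injective (R.mkQ ∘ₗ g)
  constructor
  · intro hi
    rw [injective_iff_map_eq_zero] at hi ⊢
    intro k hk
    have h3 : g k ∈ R := by
      have : R.mkQ (g k) = 0 := hk
      rwa [Submodule.mkQ_apply, Submodule.Quotient.mk_eq_zero] at this
    obtain ⟨x, hx⟩ := h3
    have h4 := hi (-x, k) (by
      rw [LinearMap.coprod_apply, map_neg, hx, neg_add_cancel])
    exact congrArg Prod.snd h4
  · intro hi
    rw [injective_iff_map_eq_zero] at hi ⊢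
    rintro ⟨x, k⟩ hxk
    rw [LinearMap.coprod_apply] at hxk
    simp only at hxk
    have h3 : g k = f (-x) := by
      rw [map_neg]
      exact eq_neg_of_add_eq_zero_right hxk
    have h4 : k = 0 := hi k (by
      show R.mkQ (g k) = 0
      rw [Submodule.mkQ_apply, Submodule.Quotient.mk_eq_zero, h3]
      exact ⟨-x, rfl⟩)
    have h5 : x = 0 := by
      rw [h4, map_zero, add_zero] at hxk
      exact hf (by rw [hxk, map_zero])
    rw [h4, h5]
    rfl

/-- a perturbation is injective with high probability -/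
theorem fr_pert (A : X →ₗ[F] Y) (C : X →ₗ[F] W) (hC : Injective C) :
    fr (fun R : Y →ₗ[F] W => ¬ Injective (C - R ∘ₗ A)) ≤
      3 ^ finrank F X / 3 ^ finrank F W := by
  have := Fintype.ofFinite X
  have hN : Fintype.card X = 3 ^ finrank F X := by
    rw [← Nat.card_eq_fintype_card, card_mod]
  have h1 : fr (fun R : Y →ₗ[F] W => ¬ Injective (C - R ∘ₗ A)) ≤
      fr (fun R : Y →ₗ[F] W => ∃ w : X, w ≠ 0 ∧ R (A w) = C w) := by
    refine fr_mono fun R hR => ?_
    rw [injective_iff_map_eq_zero] at hR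
    push Not at hR
    obtain ⟨w, hw, hw0⟩ := hR
    refine ⟨w, hw0, ?_⟩
    rw [LinearMap.sub_apply, LinearMap.comp_apply] at hw
    exact (sub_eq_zero.1 hw).symm
  refine h1.trans ?_
  have h2 : ∀ w : X, fr (fun R : Y →ₗ[F] W => w ≠ 0 ∧ R (A w) = C w) ≤ 1 / 3 ^ finrank F W := by
    intro w
    by_cases hw : w = 0
    · have : fr (fun R : Y →ₗ[F] W => w ≠ 0 ∧ R (A w) = C w) = 0 := by
        unfold fr
        have : IsEmpty {R : Y →ₗ[F] W // w ≠ 0 ∧ R (A w) = C w} := ⟨fun x => x.2.1 hw⟩
        rw [Nat.card_of_isEmpty, Nat.cast_zero, zero_div]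
      rw [this]
      positivity
    by_cases hA : A w = 0
    · have : fr (fun R : Y →ₗ[F] W => w ≠ 0 ∧ R (A w) = C w) = 0 := by
        unfold fr
        have : IsEmpty {R : Y →ₗ[F] W // w ≠ 0 ∧ R (A w) = C w} := ⟨fun x => by
          have h3 : C w = 0 := x.2.2.symm.trans ((congrArg x.1 hA).trans (map_zero x.1))
          exact hw (hC (by rw [h3, map_zero]))⟩
        rw [Nat.card_of_isEmpty, Nat.cast_zero, zero_div]
      rw [this]
      positivity
    · let π : (Y →ₗ[F] W) →+ W :=
        { toFun := fun R => R (A w)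
          map_zero' := rfl
          map_add' := fun _ _ => rfl }
      have hπ : Surjective π := by
        intro z
        obtain ⟨ψ, hψ⟩ : ∃ ψ : Y →ₗ[F] F, ψ (A w) = 1 := by
          have h3 := mt (Module.forall_dual_apply_eq_zero_iff F (A w)).1 hA
          push Not at h3
          obtain ⟨φ, hφ⟩ := h3
          exact ⟨(φ (A w))⁻¹ • φ, by
            rw [LinearMap.smul_apply, smul_eq_mul, inv_mul_cancel₀ hφ]⟩
        refine ⟨(LinearMap.toSpanSingleton F W z) ∘ₗ ψ, ?_⟩
        show (LinearMap.toSpanSingleton F W z) (ψ (A w)) = z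
        rw [hψ, LinearMap.toSpanSingleton_apply, one_smul]
      have h4 : fr (fun R : Y →ₗ[F] W => w ≠ 0 ∧ R (A w) = C w) ≤
          fr (fun R : Y →ₗ[F] W => (fun z => z = C w) (π R)) := fr_mono fun R hR => hR.2
      refine h4.trans (le_of_eq ?_)
      rw [fr_comp π hπ (fun z => z = C w), fr_single, card_mod]
      push_cast
      rfl
  refine (fr_exists _ h2).trans (le_of_eq ?_)
  rw [hN]
  push_cast
  ring

/-- the block system, abstractly -/
def Gb (A : X →ₗ[F] Y) (B : V →ₗ[F] Y) (C : X →ₗ[F] W) (R : V →ₗ[F] W) : Prop :=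
  ∀ x v, A x + B v = 0 → C x + R v = 0 → x = 0 ∧ v = 0

theorem fr_block (A : X →ₗ[F] Y) (B : V →ₗ[F] Y) (C : X →ₗ[F] W) (hB : Surjective B)
    (hC : Injective C) (h : finrank F X + finrank F V = finrank F Y + finrank F W) :
    |fr (fun R : V →ₗ[F] W => Gb A B C R) - pm (finrank F W - finrank F X)| ≤
      3 ^ finrank F X / 3 ^ finrank F W := by
  obtain ⟨s, hs⟩ := B.exists_rightInverse_of_surjective (LinearMap.range_eq_top.2 hB)
  have hs' : ∀ y, B (s y) = y := fun y => by
    rw [← LinearMap.comp_apply, hs, LinearMap.id_apply]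
  let K := LinearMap.ker B
  have hP0 : ∀ v, v - s (B v) ∈ K := fun v => by
    rw [LinearMap.mem_ker, map_sub, hs', sub_self]
  let P : V →ₗ[F] K := (LinearMap.id - s ∘ₗ B).codRestrict K hP0
  have hP : ∀ v, (P v : V) = v - s (B v) := fun v => rfl
  have hK1 : finrank F K + finrank F Y = finrank F V := by
    have h1 := LinearMap.finrank_range_add_finrank_ker B
    rw [LinearMap.range_eq_top.2 hB, finrank_top] at h1
    show finrank F (LinearMap.ker B) + _ = _
    omega
  have hC1 : finrank F X ≤ finrank F W := LinearMap.finrank_le_finrank_of_injective hC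
  obtain ⟨m, hm⟩ : ∃ m, m = finrank F W - finrank F X := ⟨_, rfl⟩
  have hK : finrank F K = m := by omega
  have hW : finrank F W = finrank F X + m := by omega
  let e : (Y →ₗ[F] W) × (K →ₗ[F] W) ≃ (V →ₗ[F] W) :=
    { toFun := fun p => p.1 ∘ₗ B + p.2 ∘ₗ P
      invFun := fun R => (R ∘ₗ s, R ∘ₗ K.subtype)
      left_inv := fun p => by
        refine Prod.ext ?_ ?_
        · refine LinearMap.ext fun y => ?_
          show p.1 (B (s y)) + p.2 (P (s y)) = p.1 y
          have : P (s y) = 0 := Subtype.ext (by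
            rw [hP, hs', sub_self]
            rfl)
          rw [this, map_zero, add_zero, hs']
        · refine LinearMap.ext fun k => ?_
          show p.1 (B (k : V)) + p.2 (P (k : V)) = p.2 k
          have h1 : B (k : V) = 0 := LinearMap.mem_ker.1 k.2
          have : P (k : V) = k := Subtype.ext (by
            rw [hP, h1, map_zero, sub_zero])
          rw [this, h1, map_zero, zero_add]
      right_inv := fun R => by
        refine LinearMap.ext fun v => ?_
        show R (s (B v)) + R (P v : V) = R v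
        rw [hP, map_sub]
        abel }
  rw [← fr_equiv e]
  have hiff : ∀ p : (Y →ₗ[F] W) × (K →ₗ[F] W), Gb A B C (e p) ↔
      Injective ((C - p.1 ∘ₗ A).coprod p.2) := by
    rintro ⟨R1, R2⟩
    have he : ∀ v, e (R1, R2) v = R1 (B v) + R2 (P v) := fun v => rfl
    constructor
    · intro hg
      refine (injective_iff_map_eq_zero _).2 ?_
      rintro ⟨x, k⟩ hxk
      rw [LinearMap.coprod_apply] at hxk
      simp only [LinearMap.sub_apply, LinearMap.comp_apply] at hxk
      have h1 : B (k : V) = 0 := LinearMap.mem_ker.1 k.2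
      have h2 : B ((k : V) - s (A x)) = -A x := by
        rw [map_sub, h1, hs', zero_sub]
      have h3 : P ((k : V) - s (A x)) = k := Subtype.ext (by
        rw [hP, h2, map_neg]
        abel)
      obtain ⟨h4, h5⟩ := hg x ((k : V) - s (A x)) (by rw [h2, add_neg_cancel]) (by
        rw [he, h2, h3, map_neg, ← hxk]
        abel)
      refine Prod.ext h4 (Subtype.ext ?_)
      rw [h4, map_zero, map_zero, sub_zero] at h5
      exact h5
    · intro hi x v h1 h2
      have hi' := (injective_iff_map_eq_zero _).1 hi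
      rw [he] at h2
      have h3 : B v = -A x := by
        rw [eq_neg_iff_add_eq_zero, add_comm]
        exact h1
      have h4 := hi' (x, P v) (by
        rw [LinearMap.coprod_apply]
        simp only [LinearMap.sub_apply, LinearMap.comp_apply]
        rw [h3, map_neg] at h2
        rw [← h2]
        abel)
      have h5 : x = 0 := congrArg Prod.fst h4
      have h6 : P v = 0 := congrArg Prod.snd h4
      refine ⟨h5, ?_⟩
      have h7 := hP v
      rw [h6, h3, h5, map_zero, neg_zero, map_zero, sub_zero] at h7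
      exact h7.symm
  have h1 : fr (fun p : (Y →ₗ[F] W) × (K →ₗ[F] W) => Gb A B C (e p)) =
      pm m * fr (fun R1 : Y →ₗ[F] W => Injective (C - R1 ∘ₗ A)) := by
    have e1 : fr (fun p : (Y →ₗ[F] W) × (K →ₗ[F] W) => Gb A B C (e p)) =
        fr (fun p : (Y →ₗ[F] W) × (K →ₗ[F] W) => Injective ((C - p.1 ∘ₗ A).coprod p.2)) := by
      congr 1
      funext p
      exact propext (hiff p)
    rw [e1]
    have := Fintype.ofFinite (Y →ₗ[F] W)
    rw [fr_prod (fun (R1 : Y →ₗ[F] W) (R2 : K →ₗ[F] W) => Injective ((C - R1 ∘ₗ A).coprod R2))]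
    have h2 : ∀ R1 : Y →ₗ[F] W, fr (fun R2 : K →ₗ[F] W =>
        Injective ((C - R1 ∘ₗ A).coprod R2)) =
        if Injective (C - R1 ∘ₗ A) then pm m else 0 := by
      intro R1
      split_ifs with hi
      · exact fr_compl hK _ hi hW
      · unfold fr
        have : IsEmpty {R2 : K →ₗ[F] W // Injective ((C - R1 ∘ₗ A).coprod R2)} := ⟨fun x => by
          apply hi
          intro a b hab
          have h3 : (C - R1 ∘ₗ A).coprod x.1 (a, 0) = (C - R1 ∘ₗ A).coprod x.1 (b, 0) := by
            rw [LinearMap.coprod_apply, LinearMap.coprod_apply]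
            simp only [map_zero, add_zero]
            exact hab
          exact congrArg Prod.fst (x.2 h3)⟩
        rw [Nat.card_of_isEmpty, Nat.cast_zero, zero_div]
    rw [Finset.sum_congr rfl fun R1 _ => h2 R1, ← Finset.sum_filter, Finset.sum_const,
      nsmul_eq_mul]
    unfold fr
    rw [Nat.card_eq_fintype_card (α := {g : Y →ₗ[F] W // Injective (C - g ∘ₗ A)}),
      Fintype.card_subtype]
    ring
  rw [h1, ← hm]
  have h2 := fr_pert A C hC
  rw [fr_not] at h2
  obtain ⟨δ, hδ⟩ : ∃ δ, δ = 1 - fr (fun R1 : Y →ₗ[F] W => Injective (C - R1 ∘ₗ A)) := ⟨_, rfl⟩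
  rw [← hδ] at h2
  have h3 : 0 ≤ δ := by
    rw [hδ]
    have := fr_le_one (fun R1 : Y →ₗ[F] W => Injective (C - R1 ∘ₗ A))
    linarith
  have h4 : pm m * fr (fun R1 : Y →ₗ[F] W => Injective (C - R1 ∘ₗ A)) - pm m = -(pm m * δ) := by
    rw [hδ]; ring
  rw [h4, abs_neg, abs_of_nonneg (mul_nonneg (pm_nonneg m) h3)]
  calc pm m * δ ≤ 1 * δ := mul_le_mul_of_nonneg_right (pm_le_one m) h3
    _ ≤ _ := by rw [one_mul]; exact h2

end lin

/-! ### the system of project CX -/

section main

open Finset

variable {U J : Type} [Fintype U] [Fintype J]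

/-- the extension by zero at `ks` -/
noncomputable def dt (ks : J) : ({l : J // l ≠ ks} → F) →ₗ[F] (J → F) where
  toFun d l := if h : l ≠ ks then d ⟨l, h⟩ else 0
  map_add' d e := by
    funext l
    by_cases h : l ≠ ks
    · simp only [dif_pos h, Pi.add_apply]
    · simp only [dif_neg h, Pi.add_apply, add_zero]
  map_smul' a d := by
    funext l
    by_cases h : l ≠ ks
    · simp only [dif_pos h, Pi.smul_apply, RingHom.id_apply]
    · simp only [dif_neg h, Pi.smul_apply, smul_zero]

lemma dt_ks (ks : J) (d : {l : J // l ≠ ks} → F) : dt ks d ks = 0 := by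
  show (if h : ks ≠ ks then d ⟨ks, h⟩ else 0) = 0
  rw [dif_neg (by simp)]

lemma dt_of (ks : J) (d : {l : J // l ≠ ks} → F) {l : J} (h : l ≠ ks) : dt ks d l = d ⟨l, h⟩ := by
  show (if h : l ≠ ks then d ⟨l, h⟩ else 0) = _
  rw [dif_pos h]

/-- the block `A'` -/
noncomputable def mA (U1 : Finset U) (A : U → U → F) (B : U → J → F) :
    (U → F) →ₗ[F] (U1 → F) where
  toFun c u := ∑ v, (c v - c u) * A u v - ∑ l, c u * B u l
  map_add' c e := by
    funext u
    simp only [Pi.add_apply]
    have h1 : ∀ v, (c v + e v - (c u + e u)) * A u v = (c v - c u) * A u v + (e v - e u) * A u v :=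
      fun v => by ring
    simp only [h1, add_mul, sum_add_distrib]
    ring
  map_smul' a c := by
    funext u
    simp only [Pi.smul_apply, smul_eq_mul, RingHom.id_apply]
    rw [mul_sub, mul_sum, mul_sum]
    congr 1
    · exact sum_congr rfl fun v _ => by ring
    · exact sum_congr rfl fun v _ => by ring

/-- the block `B'` -/
noncomputable def mB (ks : J) (U1 : Finset U) (B : U → J → F) :
    ({l : J // l ≠ ks} → F) →ₗ[F] (U1 → F) where
  toFun d u := ∑ l, dt ks d l * B u l
  map_add' c e := by
    funext u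
    simp only [Pi.add_apply, map_add, add_mul, sum_add_distrib]
  map_smul' a c := by
    funext u
    simp only [Pi.smul_apply, smul_eq_mul, RingHom.id_apply, map_smul]
    rw [mul_sum]
    exact sum_congr rfl fun v _ => by ring

/-- the block `C` -/
noncomputable def mC (J1 : Finset J) (C : J → U → F) : (U → F) →ₗ[F] (J1 → F) where
  toFun c k := ∑ u, c u * C k u
  map_add' c e := by
    funext u
    simp only [Pi.add_apply, add_mul, sum_add_distrib]
  map_smul' a c := by
    funext u
    simp only [Pi.smul_apply, smul_eq_mul, RingHom.id_apply]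
    rw [mul_sum]
    exact sum_congr rfl fun v _ => by ring

/-- the constant part of the block `R` -/
noncomputable def mR0 (ks : J) (J1 : Finset J) (C : J → U → F) :
    ({l : J // l ≠ ks} → F) →ₗ[F] (J1 → F) where
  toFun d k := -(dt ks d k * ∑ u, C k u)
  map_add' c e := by
    funext u
    simp only [Pi.add_apply, map_add, add_mul, neg_add]
  map_smul' a c := by
    funext u
    simp only [Pi.smul_apply, smul_eq_mul, RingHom.id_apply, map_smul]
    ring

lemma ext_add (J1 : Finset J) (α β : prs J1 → F) (k l : J) :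
    ext (α + β) k l = ext α k l + ext β k l := by
  unfold Pool.Agent.Y703.CX.ext
  by_cases h : (k, l) ∈ prs J1
  · simp only [dif_pos h, Pi.add_apply]
  · simp only [dif_neg h, add_zero]

lemma ext_smul (J1 : Finset J) (a : F) (β : prs J1 → F) (k l : J) :
    ext (a • β) k l = a * ext β k l := by
  unfold Pool.Agent.Y703.CX.ext
  by_cases h : (k, l) ∈ prs J1
  · simp only [dif_pos h, Pi.smul_apply, smul_eq_mul]
  · simp only [dif_neg h, mul_zero]

/-- the linear part of the block `R` -/
noncomputable def mT (ks : J) (J1 : Finset J) :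
    (prs J1 → F) →ₗ[F] (({l : J // l ≠ ks} → F) →ₗ[F] (J1 → F)) where
  toFun α :=
    { toFun := fun d k => ∑ l, (dt ks d l - dt ks d k) * ext α k l
      map_add' := fun c e => by
        funext k
        simp only [Pi.add_apply, map_add]
        rw [← sum_add_distrib]
        exact sum_congr rfl fun v _ => by ring
      map_smul' := fun a c => by
        funext k
        simp only [Pi.smul_apply, smul_eq_mul, RingHom.id_apply, map_smul]
        rw [mul_sum]
        exact sum_congr rfl fun v _ => by ring }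
  map_add' α β := by
    refine LinearMap.ext fun d => ?_
    funext k
    show ∑ l, (dt ks d l - dt ks d k) * ext (α + β) k l =
      ∑ l, (dt ks d l - dt ks d k) * ext α k l + ∑ l, (dt ks d l - dt ks d k) * ext β k l
    rw [← sum_add_distrib]
    exact sum_congr rfl fun v _ => by rw [ext_add]; ring
  map_smul' a β := by
    refine LinearMap.ext fun d => ?_
    funext k
    show ∑ l, (dt ks d l - dt ks d k) * ext (a • β) k l =
      a * ∑ l, (dt ks d l - dt ks d k) * ext β k l
    rw [mul_sum]
    exact sum_congr rfl fun v _ => by rw [ext_smul]; ring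

lemma mT_apply (ks : J) (J1 : Finset J) (α : prs J1 → F) (d : {l : J // l ≠ ks} → F) (k : J1) :
    mT ks J1 α d k = ∑ l, (dt ks d l - dt ks d k) * ext α k l := rfl

lemma ext_self (J1 : Finset J) (α : prs J1 → F) (k : J) : ext α k k = 0 := by
  unfold Pool.Agent.Y703.CX.ext
  rw [dif_neg]
  unfold prs
  simp

lemma mT_inj (ks : J) (J1 : Finset J) : Injective (mT ks J1) := by
  refine (injective_iff_map_eq_zero _).2 ?_
  intro α hα
  have h0 : ∀ (d : {l : J // l ≠ ks} → F) (k : J1),
      ∑ l, (dt ks d l - dt ks d k) * ext α k l = 0 := by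
    intro d k
    rw [← mT_apply, hα]
    rfl
  funext e
  obtain ⟨⟨k, l⟩, he⟩ := e
  have he' := he
  unfold prs at he'
  simp only [mem_filter, mem_univ, true_and] at he'
  obtain ⟨hk, hkl⟩ := he'
  have e1 : ext α k l = α ⟨(k, l), he⟩ := by
    unfold Pool.Agent.Y703.CX.ext
    rw [dif_pos he]
  show α ⟨(k, l), he⟩ = 0
  rw [← e1]
  by_cases hl : l = ks
  · have hks : k ≠ ks := fun h => hkl (by rw [hl, h])
    have h1 := h0 (fun _ => 1) ⟨k, hk⟩
    rw [Finset.sum_eq_single l] at h1
    · rw [hl, dt_ks, dt_of ks _ hks] at h1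
      rw [hl]
      simpa using h1
    · intro l' _ hl'
      rw [dt_of ks _ (by rw [← hl]; exact hl'), dt_of ks _ hks, sub_self, zero_mul]
    · intro h
      exact absurd (mem_univ _) h
  · have h1 := h0 (fun l' => if l'.1 = l then 1 else 0) ⟨k, hk⟩
    have h2 : ∀ l' : J, dt ks (fun l' : {l : J // l ≠ ks} => if l'.1 = l then (1 : F) else 0) l' =
        if l' = l then 1 else 0 := by
      intro l'
      by_cases h : l' = ks
      · rw [h, dt_ks, if_neg (fun h' => hl h'.symm)]
      · rw [dt_of ks _ h]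
    simp only [h2] at h1
    rw [if_neg (fun h => hkl h.symm)] at h1
    rw [Finset.sum_eq_single l] at h1
    · simpa using h1
    · intro l' _ hl'
      rw [if_neg hl', sub_self, zero_mul]
    · intro h
      exact absurd (mem_univ _) h

lemma card_prs (J1 : Finset J) : (prs J1).card = (Fintype.card J - 1) * J1.card := by
  have h1 : prs J1 = J1.biUnion fun k => (univ.erase k).image fun l => (k, l) := by
    ext ⟨k, l⟩
    unfold prs
    simp only [mem_filter, mem_univ, true_and, mem_biUnion, mem_image, mem_erase, Prod.mk.injEq,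
      and_true]
    constructor
    · rintro ⟨h1, h2⟩
      exact ⟨k, h1, l, h2, rfl, rfl⟩
    · rintro ⟨k', h1, l', h2, rfl, rfl⟩
      exact ⟨h1, h2⟩
  rw [h1, card_biUnion]
  · have h2 : ∀ k ∈ J1, ((univ.erase k).image fun l => (k, l)).card = Fintype.card J - 1 := by
      intro k _
      rw [card_image_of_injective _ (fun a b h => congrArg Prod.snd h), card_erase_of_mem (mem_univ _),
        card_univ]
    rw [sum_congr rfl h2, sum_const, smul_eq_mul, mul_comm]
  · intro k _ k' _ hkk
    rw [Function.onFun, disjoint_left]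
    intro x hx hx'
    simp only [mem_image] at hx hx'
    obtain ⟨a, _, rfl⟩ := hx
    obtain ⟨b, _, hb⟩ := hx'
    exact hkk (congrArg Prod.fst hb).symm

lemma card_ne (ks : J) : Fintype.card {l : J // l ≠ ks} = Fintype.card J - 1 := by
  rw [Fintype.card_subtype_compl, Fintype.card_subtype_eq]

lemma mT_bij (ks : J) (J1 : Finset J) : Bijective (mT ks J1) := by
  refine ⟨mT_inj ks J1, ?_⟩
  refine (LinearMap.injective_iff_surjective_of_finrank_eq_finrank ?_).1 (mT_inj ks J1)
  rw [Module.finrank_linearMap, finrank_fintype_fun_eq_card, finrank_fintype_fun_eq_card,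
    finrank_fintype_fun_eq_card, Fintype.card_coe, Fintype.card_coe, card_ne, card_prs]

/-- the parametrisation of the last block -/
noncomputable def eR (ks : J) (J1 : Finset J) (C : J → U → F) :
    (prs J1 → F) ≃ (({l : J // l ≠ ks} → F) →ₗ[F] (J1 → F)) :=
  (Equiv.ofBijective _ (mT_bij ks J1)).trans (Equiv.addRight (mR0 ks J1 C))

lemma eR_apply (ks : J) (J1 : Finset J) (C : J → U → F) (α : prs J1 → F)
    (d : {l : J // l ≠ ks} → F) (k : J1) : eR ks J1 C α d k =
    ∑ l, (dt ks d l - dt ks d k) * ext α k l + -(dt ks d k * ∑ u, C k u) := rfl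

lemma row1 (ks : J) (U1 : Finset U) (A : U → U → F) (B : U → J → F) (x : U → F)
    (d : {l : J // l ≠ ks} → F) (u : U1) :
    (mA U1 A B x + mB ks U1 B d) u =
    ∑ v, (x v - x u) * A u v + ∑ l, (dt ks d l - x u) * B u l := by
  show (∑ v, (x v - x u) * A u v - ∑ l, x u * B u l) + ∑ l, dt ks d l * B u l = _
  simp only [sub_mul, sum_sub_distrib]
  ring

lemma row2 (ks : J) (J1 : Finset J) (C : J → U → F) (α : prs J1 → F) (x : U → F)
    (d : {l : J // l ≠ ks} → F) (k : J1) :
    (mC J1 C x + eR ks J1 C α d) k =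
    ∑ u, (x u - dt ks d k) * C k u + ∑ l, (dt ks d l - dt ks d k) * ext α k l := by
  rw [Pi.add_apply, eR_apply]
  show ∑ u, x u * C k u + _ = _
  have h : ∑ u, (x u - dt ks d k) * C k u = ∑ u, x u * C k u - dt ks d k * ∑ u, C k u := by
    rw [mul_sum, ← sum_sub_distrib]
    exact sum_congr rfl fun _ _ => by ring
  rw [h]
  ring

lemma gd_iff (ks : J) (U1 : Finset U) (J1 : Finset J) (A : U → U → F) (B : U → J → F)
    (C : J → U → F) (α : prs J1 → F) : GdA U1 J1 A B C (ext α) ↔
    Gb (mA U1 A B) (mB ks U1 B) (mC J1 C) (eR ks J1 C α) := by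
  constructor
  · intro hg x d h1 h2
    obtain ⟨t, ht1, ht2⟩ := hg x (dt ks d) (fun u hu => by
        rw [← row1 ks U1 A B x d ⟨u, hu⟩, h1]
        rfl) (fun k hk => by
        rw [← row2 ks J1 C α x d ⟨k, hk⟩, h2]
        rfl)
    have ht : t = 0 := by rw [← ht2 ks, dt_ks]
    refine ⟨funext fun u => by rw [ht1 u, ht]; rfl, funext fun l => ?_⟩
    rw [← dt_of ks d l.2, ht2, ht]
    rfl
  · intro hg c d h1 h2
    have h3 : ∀ l, dt ks (fun l : {l : J // l ≠ ks} => d l - d ks) l = d l - d ks := by
      intro l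
      by_cases h : l = ks
      · rw [h, dt_ks, sub_self]
      · rw [dt_of ks _ h]
    obtain ⟨h4, h5⟩ := hg (fun u => c u - d ks) (fun l => d l - d ks) (by
      funext u
      rw [row1]
      have h6 := h1 u u.2
      simp only [h3, sub_sub_sub_cancel_right]
      exact h6) (by
      funext k
      rw [row2]
      have h6 := h2 k k.2
      simp only [h3, sub_sub_sub_cancel_right]
      exact h6)
    refine ⟨d ks, fun u => sub_eq_zero.1 (congrFun h4 u), fun l => ?_⟩
    by_cases h : l = ks
    · rw [h]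
    · exact sub_eq_zero.1 (congrFun h5 ⟨l, h⟩)

lemma mB_surj (ks : J) (U1 : Finset U) (B : U → J → F)
    (h : ∀ v : U → F, (∃ u ∈ U1, v u ≠ 0) → ∃ l, l ≠ ks ∧ ∑ u ∈ U1, v u * B u l ≠ 0) :
    Surjective (mB ks U1 B) := by
  rw [← LinearMap.range_eq_top]
  by_contra hcon
  obtain ⟨f, hf, hf'⟩ := Submodule.exists_le_ker_of_lt_top _ (lt_top_iff_ne_top.2 hcon)
  obtain ⟨v, hv⟩ : ∃ v : U → F, v = fun u => if hu : u ∈ U1 then f (Pi.single ⟨u, hu⟩ 1) else 0 :=
    ⟨_, rfl⟩
  have hv' : ∀ u : U1, v u = f (Pi.single u 1) := by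
    intro u
    rw [hv]
    simp only
    rw [dif_pos u.2]
  have hfx : ∀ y : U1 → F, f y = ∑ u : U1, v u * y u := by
    intro y
    have h1 : y = ∑ u : U1, y u • (Pi.single u 1 : U1 → F) := by
      funext w
      rw [Finset.sum_apply, Finset.sum_eq_single w]
      · simp
      · intro b _ hb
        simp [Pi.single_apply, hb.symm]
      · intro h
        exact absurd (mem_univ _) h
    conv_lhs => rw [h1]
    rw [map_sum]
    refine sum_congr rfl fun u _ => ?_
    rw [map_smul, hv', smul_eq_mul, mul_comm]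
  have hne : ∃ u ∈ U1, v u ≠ 0 := by
    by_contra hc
    push Not at hc
    apply hf
    refine LinearMap.ext fun y => ?_
    rw [hfx]
    exact sum_eq_zero fun u _ => by rw [hc u u.2, zero_mul]
  obtain ⟨l, hl, hl'⟩ := h v hne
  apply hl'
  have h2 : f (mB ks U1 B (fun l' => if l'.1 = l then 1 else 0)) = 0 :=
    LinearMap.mem_ker.1 (hf' ⟨_, rfl⟩)
  rw [hfx] at h2
  rw [← h2, ← Finset.sum_coe_sort U1]
  refine sum_congr rfl fun u _ => ?_
  congr 1
  show B u l = ∑ l', dt ks _ l' * B u l'
  rw [Finset.sum_eq_single l]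
  · rw [dt_of ks _ hl]
    simp
  · intro l' _ hl''
    by_cases h' : l' = ks
    · rw [h', dt_ks, zero_mul]
    · rw [dt_of ks _ h', if_neg hl'', zero_mul]
  · intro h
    exact absurd (mem_univ _) h

lemma mC_inj (J1 : Finset J) (C : J → U → F)
    (h : ∀ w : U → F, (∃ u, w u ≠ 0) → ∃ k ∈ J1, ∑ u, w u * C k u ≠ 0) : Injective (mC J1 C) := by
  refine (injective_iff_map_eq_zero _).2 ?_
  intro w hw
  by_contra hcon
  have h1 : ∃ u, w u ≠ 0 := by
    by_contra hc
    push Not at hc
    exact hcon (funext hc)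
  obtain ⟨k, hk, hk'⟩ := h w h1
  exact hk' (congrFun hw ⟨k, hk⟩)

theorem t_LA (h3 : S_C3) : S_LA := by
  intro U J _ _ U1 J1 ks hcard hJ A B C hB hC
  have hU : 1 ≤ Fintype.card J := Fintype.card_pos_iff.2 ⟨ks⟩
  have e1 : finrank F (U → F) = Fintype.card U := finrank_fintype_fun_eq_card F
  have e2 : finrank F ({l : J // l ≠ ks} → F) = Fintype.card J - 1 := by
    rw [finrank_fintype_fun_eq_card, card_ne]
  have e3 : finrank F (U1 → F) = U1.card := by
    rw [finrank_fintype_fun_eq_card, Fintype.card_coe]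
  have e4 : finrank F (J1 → F) = J1.card := by
    rw [finrank_fintype_fun_eq_card, Fintype.card_coe]
  have key := fr_block (mA U1 A B) (mB ks U1 B) (mC J1 C) (mB_surj ks U1 B hB) (mC_inj J1 C hC)
    (by rw [e1, e2, e3, e4]; omega)
  have hle : Fintype.card U ≤ J1.card := by
    rw [← e1, ← e4]
    exact LinearMap.finrank_le_finrank_of_injective (mC_inj J1 C hC)
  have h5 : ((univ.filter fun α : prs J1 → ZMod 3 => GdA U1 J1 A B C (ext α)).card : ℝ) /
      3 ^ (prs J1).card = fr (fun R : ({l : J // l ≠ ks} → F) →ₗ[F] (J1 → F) =>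
        Gb (mA U1 A B) (mB ks U1 B) (mC J1 C) R) := by
    rw [← fr_equiv (eR ks J1 C)]
    unfold fr
    have h6 : Nat.card (prs J1 → F) = 3 ^ (prs J1).card := by
      rw [Nat.card_fun, Nat.card_eq_fintype_card, Nat.card_eq_fintype_card, ZMod.card,
        Fintype.card_coe]
    rw [h6, Nat.card_eq_fintype_card, Fintype.card_subtype]
    push_cast
    congr 3
    refine Finset.filter_congr fun α _ => ?_
    exact gd_iff ks U1 J1 A B C α
  rw [h5]
  rw [e1, e4] at key
  have h7 := h3.1 (J1.card - Fintype.card U)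
  have h8 : (1 / 3 : ℝ) ^ (J1.card - Fintype.card U) = 3 ^ Fintype.card U / 3 ^ J1.card := by
    rw [one_div_pow, one_div, inv_eq_one_div, div_eq_div_iff (by positivity) (by positivity),
      one_mul, ← pow_add]
    congr 1
    omega
  rw [h8] at h7
  have h9 : ∏ i ∈ range (J1.card - Fintype.card U), (1 - (1 / 3 : ℝ) ^ (i + 1)) =
      pm (J1.card - Fintype.card U) := rfl
  rw [h9] at h7
  rw [abs_le] at key h7 ⊢
  constructor <;> linarith [key.1, key.2, h7.1, h7.2]

end main

end Pool.Agent.Y759.CX
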